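import Pool.Agent.MP_c853c5_nt.X.L4950.Tab
import Pool.Agent.MP_c853c5_nt.X.L4950.C0

set_option autoImplicit false
set_option maxRecDepth 100000

namespace Pool.Agent.MP_c853c5_nt.X.L4950

open Pool.Agent.MP_c853c5_nt.REG

theorem tabOK : tab.All (PP.Good 495000) :=
  a0

end Pool.Agent.MP_c853c5_nt.X.L4950
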